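import Pool.Agent.Run7.h266.AZ.Few

set_option autoImplicit false

universe u

namespace Pool.Agent.Results.MP_0f25e6_al.FewCosets

/-- `α * f` is nonzero for every nonzero square-summable `f`, where
`(α * f)(g) = ∑ α(k) f(k⁻¹ g)`. -/
def Regular {G : Type u} [Group G] (α : G →₀ ℂ) : Prop :=
  ∀ f : G → ℂ, Memℓp f 2 → f ≠ 0 → ∃ g : G, ∑ k ∈ α.support, α k * f (k⁻¹ * g) ≠ 0

/-- The analytic zero divisor conjecture holds for the group `H`. -/
def AZD (H : Type u) [Group H] : Prop := ∀ β : H →₀ ℂ, β ≠ 0 → Regular β

/-- A group is locally indicable if every nontrivial finitely generated subgroup has a nontrivial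
homomorphism to the group of integers. -/
def LocallyIndicable (H : Type u) [Group H] : Prop :=
  ∀ K : Subgroup H, K.FG → K ≠ ⊥ → ∃ φ : K →* Multiplicative ℤ, ∃ k, φ k ≠ 1

/-- All square-summable `f` with `α * f = 0`. -/
def kernel {G : Type u} [Group G] (α : G →₀ ℂ) : Set (lp (fun _ : G => ℂ) 2) :=
  {f | ∀ g : G, ∑ k ∈ α.support, α k * f (k⁻¹ * g) = 0}

open Classical in
/-- The von Neumann dimension of the kernel of left convolution by `α`: one minus the square of the
distance from the basis vector at the identity of `G` to the kernel (this is the squared length of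
the projection of that vector to the kernel). -/
noncomputable def kerDim {G : Type u} [Group G] (α : G →₀ ℂ) : ℝ :=
  1 - Metric.infDist (lp.single 2 (1 : G) (1 : ℂ)) (kernel α) ^ 2

open Classical in
/-- The part of `α` supported in the set `D`. -/
noncomputable def part {G : Type u} (α : G →₀ ℂ) (D : Set G) : G →₀ ℂ := α.filter (· ∈ D)

theorem rk_eq_kerDim {G : Type u} [Group G] (α : G →₀ ℂ) : Run7.h266.AZ.rk α = 1 - kerDim α := by
  rw [Run7.h266.AZ.rk_eq]
  congr 1
  exact (W649.ZL.kerDim_eq_vd α).symm

/-- **Elements supported in few cosets.** Let `G` be any group, `H` a subgroup, `α` an element of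
the complex group algebra of `G`, `X` a finite set and `D` a subset of `G`.

1. If the support of `α` is contained in the union of the right cosets `H y`, `y ∈ X`, and `D` is a
   union of right cosets, then the corank of `α` is at least that of its part in `D`, divided by
   `|X|`: `1 - dim ker α_D ≤ |X| (1 - dim ker α)`.
2. The same for left cosets.
3. If the analytic zero divisor conjecture holds for `H` and `α ≠ 0`, then the dimension of the
   kernel of `α` is at most `1 - 1 / |X|`, if the support of `α` is contained in the union of the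
   right cosets `H y`, `y ∈ X`, or in the union of the left cosets `y H`, `y ∈ X`.
4. This holds for all locally indicable subgroups `H` of `G`, for example the subgroup generated by
   an element of infinite order. -/
theorem result {G : Type u} [Group G] (H : Subgroup G) (α : G →₀ ℂ) (X : Finset G) :
    ((∀ x ∈ α.support, ∃ y ∈ X, x * y⁻¹ ∈ H) →
      ∀ D : Set G, (∀ h ∈ H, ∀ x ∈ D, h * x ∈ D) →
        1 - kerDim (part α D) ≤ X.card * (1 - kerDim α)) ∧
    ((∀ x ∈ α.support, ∃ y ∈ X, y⁻¹ * x ∈ H) →
      ∀ D : Set G, (∀ h ∈ H, ∀ x ∈ D, x * h ∈ D) →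
        1 - kerDim (part α D) ≤ X.card * (1 - kerDim α)) ∧
    (AZD H ∨ LocallyIndicable H → α ≠ 0 →
      ((∀ x ∈ α.support, ∃ y ∈ X, x * y⁻¹ ∈ H) ∨ (∀ x ∈ α.support, ∃ y ∈ X, y⁻¹ * x ∈ H)) →
      kerDim α ≤ 1 - 1 / (X.card : ℝ)) := by
  classical
  refine ⟨fun hX D hD => ?_, fun hX D hD => ?_, fun hH h0 hX => ?_⟩
  · rw [← rk_eq_kerDim, ← rk_eq_kerDim]
    have h := Run7.h266.AZ.rk_right H α X hX D hD
    have e : part α D = α.filter (· ∈ D) := by
      unfold part
      congr!
    rw [e]
    convert h
  · rw [← rk_eq_kerDim, ← rk_eq_kerDim]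
    have h := Run7.h266.AZ.rk_left H α X hX D hD
    have e : part α D = α.filter (· ∈ D) := by
      unfold part
      congr!
    rw [e]
    convert h
  · have hgood : Run7.h266.AZ.Good H := by
      rcases hH with hH | hH
      · intro β hs hβ
        apply W649.ZL.injective_of_subgroup H β hs
        apply (W649.ZL.regular_iff _).1
        apply hH
        intro h
        apply hβ
        ext x
        by_cases hx : x ∈ β.support
        · have := congrArg (fun F : H →₀ ℂ => F ⟨x, hs x hx⟩) h
          exact this
        · exact Finsupp.notMem_support_iff.1 hx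
      · exact Run7.h266.AZ.good_of_LI H hH
    have h1 : 1 ≤ X.card * Run7.h266.AZ.rk α := by
      rcases hX with hX | hX
      · exact hgood.few_right α h0 X hX
      · exact hgood.few_left α h0 X hX
    rw [rk_eq_kerDim] at h1
    have hX0 : (0 : ℝ) < X.card := by
      obtain ⟨x, hx⟩ := Finsupp.support_nonempty_iff.2 h0
      rcases hX with hX | hX
      · obtain ⟨y, hy, _⟩ := hX x hx
        exact_mod_cast Finset.card_pos.2 ⟨y, hy⟩
      · obtain ⟨y, hy, _⟩ := hX x hx
        exact_mod_cast Finset.card_pos.2 ⟨y, hy⟩
    have h2 : 1 / (X.card : ℝ) ≤ 1 - kerDim α := by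
      rw [div_le_iff₀ hX0]
      linarith
    linarith

end Pool.Agent.Results.MP_0f25e6_al.FewCosets
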