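import Pool.Agent.Run7.h917.LW.Final

set_option autoImplicit false

open scoped InnerProductSpace Pointwise

universe u v

namespace Pool.Agent.Results.MP_0f25e6_al.RankTimesSupport

/-- All square-summable `f` with `α * f = 0`, where `(α * f)(g) = ∑ α(k) f(k⁻¹ g)`. -/
def kernel {G : Type u} [Group G] (α : G →₀ ℂ) : Set (lp (fun _ : G => ℂ) 2) :=
  {f | ∀ g : G, ∑ k ∈ α.support, α k * f (k⁻¹ * g) = 0}

open Classical in
/-- The von Neumann dimension of the kernel of left convolution by `α`: one minus the square of the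
distance from the basis vector at the identity of `G` to the kernel (this is the squared length of
the projection of that vector to the kernel). -/
noncomputable def kerDim {G : Type u} [Group G] (α : G →₀ ℂ) : ℝ :=
  1 - Metric.infDist (lp.single 2 (1 : G) (1 : ℂ)) (kernel α) ^ 2

/-- The square of the norm of `α` in `ℓ²(G)`. -/
noncomputable def normSq {G : Type u} (α : G →₀ ℂ) : ℝ := ∑ g ∈ α.support, ‖α g‖ ^ 2

/-- The identity is the only element of finite order. -/
def TorsionFree (G : Type u) [Group G] : Prop := ∀ g : G, IsOfFinOrder g → g = 1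

theorem one_sub {G : Type u} [Group G] (α : G →₀ ℂ) :
    1 - kerDim α = Run7.h917.LW.rk α := by
  unfold kerDim Run7.h917.LW.rk
  rw [sub_sub_cancel]
  rfl

/-- **The rank of an element of the group algebra, times the size of its support, tends to
infinity, uniformly over all torsion-free groups.**

1. For every `C` there is `N` such that for all torsion-free groups `G` and all `α` in the complex
   group algebra with at least `N` terms, all of absolute value at least `m`:
   `(1 - dim ker α) ‖α‖² ≥ C m²`. In particular `dim ker α ≤ 1 - C / n` if `α` has `n ≥ N` terms,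
   all of absolute value one.
2. For every `C` there is `N` such that for all torsion-free groups `G` and all `α` with
   `‖α‖² ≥ N` and no coefficient of absolute value in the open interval `(0, 1)`, for example with
   integer coefficients: `(1 - dim ker α) ‖α‖² ≥ C`.
3. All groups: for all `C`, `K`, `B` there is `N` such that for every group `G` and every `α` with
   at least `N` terms, all of absolute value at least `m`, either `(1 - dim ker α) ‖α‖² ≥ C m²`, or
   there are a set `X` of `B` elements and `y` in `G` such that each product of `K` elements of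
   `X⁻¹ X` is of finite order and `X (X⁻¹ X) ^ K y` is a subset of the support of `α`.
4. Coefficients of unitary representations: for every `C` there is `N` such that for every unitary
   representation `π` of a torsion-free group on an inner product space and all vectors `ξ`, `η`
   with `‖ξ‖ ‖η‖ ≤ C`: if `g ↦ ⟪η, π(g) ξ⟫` has finite support, and is of absolute value at least
   one on its support, then the support has less than `N` elements. -/
theorem result :
    (∀ C : ℝ, ∃ N : ℕ, ∀ (G : Type u) [Group G], TorsionFree G → ∀ (α : G →₀ ℂ) (m : ℝ), 0 ≤ m →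
      (∀ g ∈ α.support, m ≤ ‖α g‖) → N ≤ α.support.card →
      C * m ^ 2 ≤ (1 - kerDim α) * normSq α) ∧
    (∀ C : ℝ, ∃ N : ℕ, ∀ (G : Type u) [Group G], TorsionFree G → ∀ α : G →₀ ℂ,
      (∀ g ∈ α.support, 1 ≤ ‖α g‖) → (N : ℝ) ≤ normSq α → C ≤ (1 - kerDim α) * normSq α) ∧
    (∀ (C : ℝ) (K B : ℕ), ∃ N : ℕ, ∀ (G : Type u) [Group G] (α : G →₀ ℂ) (m : ℝ), 0 ≤ m →
      (∀ g ∈ α.support, m ≤ ‖α g‖) → N ≤ α.support.card →
      C * m ^ 2 ≤ (1 - kerDim α) * normSq α ∨
      ∃ X : Finset G, X.card = B ∧ ∃ y : G, ∀ w ∈ ((X : Set G)⁻¹ * (X : Set G)) ^ K,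
        IsOfFinOrder w ∧ ∀ x ∈ X, x * w * y ∈ α.support) ∧
    (∀ C : ℝ, ∃ N : ℕ, ∀ (G : Type u) [Group G], TorsionFree G → ∀ (H : Type v)
      [NormedAddCommGroup H] [InnerProductSpace ℂ H] (π : G →* (H ≃ₗᵢ[ℂ] H)) (ξ η : H),
      ‖ξ‖ * ‖η‖ ≤ C → ∀ S : Finset G, (∀ g, g ∈ S ↔ ⟪η, π g ξ⟫_ℂ ≠ 0) →
      (∀ g ∈ S, 1 ≤ ‖⟪η, π g ξ⟫_ℂ‖) → S.card < N) := by
  refine ⟨fun C => ?_, fun C => ?_, fun C K B => ?_, fun C => ?_⟩
  · obtain ⟨N, hN⟩ := Run7.h917.LW.rank_few.{u} C 1
    refine ⟨N, fun G _ hG α m hm hα hcard => ?_⟩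
    rw [one_sub]
    exact hN G (Run7.h917.LW.few_of_torsionFree G hG) α m hm hα hcard
  · obtain ⟨N, hN⟩ := Run7.h917.LW.rank_int.{u} C 1
    refine ⟨N, fun G _ hG α hα hcard => ?_⟩
    rw [one_sub]
    exact hN G (Run7.h917.LW.few_of_torsionFree G hG) α hα hcard
  · obtain ⟨N, hN⟩ := Run7.h917.LW.rank_general.{u} C K B
    refine ⟨N, fun G _ α m hm hα hcard => ?_⟩
    rw [one_sub]
    exact hN G α m hm hα hcard
  · obtain ⟨N, hN⟩ := Run7.h917.LW.unitary_few.{u, v} C 1
    exact ⟨N, fun G _ hG H _ _ π ξ η h S hS hS1 =>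
      hN G (Run7.h917.LW.few_of_torsionFree G hG) H π ξ η h S hS hS1⟩

end Pool.Agent.Results.MP_0f25e6_al.RankTimesSupport
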