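import Pool.Agent.Run7.h266.AZ.Two

set_option autoImplicit false

universe u

namespace Pool.Agent.Results.MP_0f25e6_al.SquaredBound

/-- All square-summable `f` with `α * f = 0`, where `(α * f)(g) = ∑ α(k) f(k⁻¹ g)`. -/
def kernel {G : Type u} [Group G] (α : G →₀ ℂ) : Set (lp (fun _ : G => ℂ) 2) :=
  {f | ∀ g : G, ∑ k ∈ α.support, α k * f (k⁻¹ * g) = 0}

open Classical in
/-- The von Neumann dimension of the kernel of left convolution by `α`: one minus the square of the
distance from the basis vector at the identity of `G` to the kernel (this is the squared length of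
the projection of that vector to the kernel). -/
noncomputable def kerDim {G : Type u} [Group G] (α : G →₀ ℂ) : ℝ :=
  1 - Metric.infDist (lp.single 2 (1 : G) (1 : ℂ)) (kernel α) ^ 2

open Classical in
/-- The number of elements `x` of the finite set `S` such that `u x` is in `S`. -/
noncomputable def rep {G : Type u} [Group G] (S : Finset G) (u : G) : ℕ :=
  (S.filter (fun x => u * x ∈ S)).card

open Classical in
/-- The set of the quotients `y x⁻¹` of two distinct elements `x`, `y` of the finite set `S`. -/
noncomputable def quotients {G : Type u} [Group G] (S : Finset G) : Finset G :=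
  S.offDiag.image (fun z => z.2 * z.1⁻¹)

theorem rk_eq_kerDim {G : Type u} [Group G] (α : G →₀ ℂ) : Run7.h266.AZ.rk α = 1 - kerDim α := by
  rw [Run7.h266.AZ.rk_eq]
  congr 1
  exact (W649.ZL.kerDim_eq_vd α).symm

/-- **The dimension of the kernel of an element with `n` terms.** Let `G` be any group, `α` a
nonzero element of the complex group algebra with `n` terms, `S` its support and `d` the von
Neumann dimension of the kernel of `α` on `ℓ²(G)`.

1. If `G` is torsion-free, then `d ≤ (1 - 1 / n) ^ 2`.
2. This remains true for any group `G` if each quotient `u ≠ 1` of finite order of two elements of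
   `S` is the quotient of at most `n (n - 1) / (2 n - 1)` pairs.
3. Popular quotients: for every real number `r ≥ 0`, `n d² ≤ (n - 1) (r d (1 - d) +
   min(d, 1 - d)² ∑ max(rep u - r, 0))`, the sum over all quotients `u ≠ 1` of two elements of
   `S`.
4. In particular, if each quotient `u ≠ 1` of two elements of `S` is the quotient of at most `m`
   pairs, then `n ≤ (1 - d) (n + (n - 1) m)`. -/
theorem result {G : Type u} [Group G] (α : G →₀ ℂ) (hα : α ≠ 0) (n : ℕ)
    (hn : n = α.support.card) :
    ((∀ g : G, IsOfFinOrder g → g = 1) → kerDim α ≤ (1 - 1 / (n : ℝ)) ^ 2) ∧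
    ((∀ u ∈ quotients α.support, IsOfFinOrder u →
      (2 * n - 1) * rep α.support u ≤ n * (n - 1)) → kerDim α ≤ (1 - 1 / (n : ℝ)) ^ 2) ∧
    (∀ r : ℝ, 0 ≤ r → (n : ℝ) * kerDim α ^ 2 ≤ ((n : ℝ) - 1) *
      (r * (kerDim α * (1 - kerDim α)) + min (kerDim α) (1 - kerDim α) ^ 2 *
        ∑ u ∈ quotients α.support, max ((rep α.support u : ℝ) - r) 0)) ∧
    (∀ m : ℕ, (∀ u ∈ quotients α.support, rep α.support u ≤ m) →
      (n : ℝ) ≤ (1 - kerDim α) * (n + (n - 1) * m)) := by
  have hnpos : 0 < n := by
    rw [hn]
    exact (Finsupp.support_nonempty_iff.2 hα).card_pos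
  have hnR : (0 : ℝ) < n := by exact_mod_cast hnpos
  have hrk := rk_eq_kerDim α
  have key : (∀ u ∈ quotients α.support, IsOfFinOrder u →
      (2 * n - 1) * rep α.support u ≤ n * (n - 1)) → kerDim α ≤ (1 - 1 / (n : ℝ)) ^ 2 := by
    intro h
    have h1 := Run7.h266.AZ.two_over_n α hα (by rw [← hn]; exact h)
    rw [← hn, hrk] at h1
    have h2 : (1 - 1 / (n : ℝ)) ^ 2 = ((n : ℝ) ^ 2 - (2 * n - 1)) / (n : ℝ) ^ 2 := by
      field_simp
      ring
    rw [h2, le_div_iff₀ (by positivity)]
    linarith
  refine ⟨fun htf => key ?_, key, ?_, ?_⟩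
  · intro u hu hfin
    exact absurd (htf u hfin) (Run7.h266.AZ.quo_ne_one _ u hu)
  · intro r hr
    have h1 := Run7.h266.AZ.popular_rk α hα r hr
    rw [← hn, hrk, show 1 - (1 - kerDim α) = kerDim α by ring] at h1
    exact h1
  · intro m hm
    have h1 := Run7.h266.AZ.popular_max α hα m hm
    rw [← hn, hrk] at h1
    exact h1

end Pool.Agent.Results.MP_0f25e6_al.SquaredBound
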