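import Pool.Agent.TH57.AZ.Wedge

/-!
# Analytic zero divisors and powers of the size of the support

The rank of an element `α` of the complex group algebra of `G` is one minus the von Neumann dimension
of its kernel on `ℓ²(G)`. The analytic zero divisor conjecture says that the rank of every nonzero
element is one if `G` is torsion-free. An element with `N` terms has rank at least `1 / N`, for every
group. We show that the conjecture is equivalent to the lower bound `N ^ (- o (1))`: for a class of
groups closed under finite powers, for example the torsion-free groups, the conjecture holds if and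
only if for every `δ > 0` there are arbitrarily large `N` such that all nonzero elements with
coefficients `0`, `1`, `-1` and at most `N` terms have rank at least `N ^ (- δ)`. So if the conjecture
fails for the class then there is an exponent `θ > 0` such that for all large `N` there is such an
element with at most `N` terms and rank less than `N ^ (- θ)`.

Outline. A counterexample gives one with coefficients `0`, `1`, `-1` (the alternating element of the
support, starting library `TH57.AZ`), and the rank of the tensor power of an element over the power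
of the group is at most the power of its rank, while its number of terms is the power of the number
of terms.
-/

set_option autoImplicit false

universe u

namespace Pool.Agent.Results.MP_0f25e6_al.SupportPowerLaw

/-- `α * f` is nonzero for every nonzero square-summable `f`, where
`(α * f)(g) = ∑ α(k) f(k⁻¹ g)`. -/
def Regular {G : Type u} [Group G] (α : G →₀ ℂ) : Prop :=
  ∀ f : G → ℂ, Memℓp f 2 → f ≠ 0 → ∃ g : G, ∑ k ∈ α.support, α k * f (k⁻¹ * g) ≠ 0

/-- All square-summable `f` with `α * f = 0`. -/
def kernel {G : Type u} [Group G] (α : G →₀ ℂ) : Set (lp (fun _ : G => ℂ) 2) :=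
  {f | ∀ g : G, ∑ k ∈ α.support, α k * f (k⁻¹ * g) = 0}

open Classical in
/-- The von Neumann rank of the left convolution by `α` on `ℓ²(G)`, that is, one minus the von Neumann
dimension of its kernel: the square of the distance from the basis vector at the identity of `G` to
the kernel. -/
noncomputable def rank {G : Type u} [Group G] (α : G →₀ ℂ) : ℝ :=
  Metric.infDist (lp.single 2 (1 : G) (1 : ℂ)) (kernel α) ^ 2

/-- All coefficients of `α` are `0`, `1` or `-1`. -/
def Signed {G : Type u} (α : G →₀ ℂ) : Prop := ∀ g, α g = 0 ∨ α g = 1 ∨ α g = -1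

/-- `G` is torsion-free. -/
def TorsionFree (G : Type u) [Group G] : Prop := ∀ g : G, ∀ n : ℕ, 0 < n → g ^ n = 1 → g = 1

open Pool.Agent.TH57.AZ

theorem rank_eq {G : Type u} [Group G] (α : G →₀ ℂ) : rank α = 1 - kd α := by
  have h : kd α = 1 - rank α := rfl
  rw [h]
  ring

theorem exists_of_not_regular {G : Type u} [Group G] {α : G →₀ ℂ} (h : ¬ Regular α) :
    0 < kd α := by
  unfold Regular at h
  push Not at h
  obtain ⟨f, hf, h0, h1⟩ := h
  refine kd_pos α (f := ⟨f, hf⟩) h1 ?_
  intro h2
  apply h0
  exact congrArg (fun x : lp (fun _ : G => ℂ) 2 => (x : G → ℂ)) h2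

theorem kd_of_regular {G : Type u} [Group G] {α : G →₀ ℂ} (h : Regular α) : kd α = 0 := by
  by_contra hne
  obtain ⟨u, hu, _, hu2⟩ := exists_proj α
  have h0 : u ≠ 0 := by
    intro h0
    apply hne
    rw [← hu2, h0]
    simp
  obtain ⟨g, hg⟩ := h u (lp.memℓp u) (by
    intro h1
    exact h0 (lp.ext h1))
  exact hg (hu g)

/-- the alternating element of the support -/
theorem signed {G : Type u} [Group G] (α : G →₀ ℂ) (h0 : α ≠ 0) :
    ∃ β : (Fin α.support.card → G) →₀ ℂ, β ≠ 0 ∧ Signed β ∧
      kd α ^ α.support.card ≤ kd β := by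
  set e := α.support.equivFin.symm with he
  set g : Fin α.support.card → G := fun i => (e i : G) with hg
  have hinj : Function.Injective g := fun i j h => e.injective (Subtype.ext h)
  refine ⟨wd g, wd_ne_zero hinj, wd_values hinj, kd_wedge α g hinj ?_ h0⟩
  intro x
  constructor
  · intro hx
    exact ⟨e.symm ⟨x, hx⟩, by rw [hg]; simp⟩
  · rintro ⟨i, rfl⟩
    exact (e i).2

theorem card_tpF {G : Type u} [Group G] (n : ℕ) (α : G →₀ ℂ) :
    (tpF n α).support.card ≤ α.support.card ^ n := by
  classical
  have h1 : (tpF n α).support ⊆ Fintype.piFinset fun _ : Fin n => α.support := by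
    intro x hx
    rw [Fintype.mem_piFinset]
    intro i
    rw [Finsupp.mem_support_iff] at hx ⊢
    intro h
    exact hx (Finset.prod_eq_zero (Finset.mem_univ i) h)
  refine (Finset.card_le_card h1).trans (le_of_eq ?_)
  rw [Fintype.card_piFinset]
  simp

theorem torsionFree_pow (G : Type u) [Group G] (n : ℕ) (h : TorsionFree G) :
    TorsionFree (Fin n → G) := by
  intro g k hk hg
  funext i
  exact h (g i) k hk (congrFun hg i)

/-- from one element of rank less than one to elements of rank `N ^ (- θ)` -/
theorem small_rank {G : Type u} [Group G] (β : G →₀ ℂ) (h1 : kd β > 0) :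
    ∃ δ : ℝ, 0 < δ ∧ ∃ N₀ : ℕ, ∀ N ≥ N₀, ∃ n : ℕ, (β.support.card : ℝ) ^ n ≤ N ∧
      1 - kd (tpF n β) < (N : ℝ) ^ (-δ) := by
  set ρ : ℝ := 1 - kd β with hρ
  have hρ1 : ρ < 1 := by rw [hρ]; linarith
  have hρ0 : 0 ≤ ρ := by rw [hρ]; linarith [kd_le_one β]
  have hpow : ∀ n, 1 - kd (tpF n β) ≤ ρ ^ n := by
    intro n
    have := kd_tpF n β
    rw [hρ]
    linarith
  set c : ℕ := max 2 β.support.card with hc
  have hc2 : 2 ≤ c := le_max_left _ _
  have hcR : (2 : ℝ) ≤ c := by exact_mod_cast hc2
  have hcβ : (β.support.card : ℝ) ≤ c := by exact_mod_cast (le_max_right _ _)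
  have hlc : 0 < Real.log c := Real.log_pos (by linarith)
  -- a number between the rank and one
  obtain ⟨q, hq1, hq2⟩ := exists_between hρ1
  have hq0 : 0 < q := lt_of_le_of_lt hρ0 hq1
  have hlq : Real.log q < 0 := Real.log_neg hq0 hq2
  set δ : ℝ := -Real.log q / (2 * Real.log c) with hδ
  have hδ0 : 0 < δ := div_pos (by linarith) (by linarith)
  refine ⟨δ, hδ0, c, fun N hN => ?_⟩
  have hN1 : N ≠ 0 := by omega
  set n := Nat.log c N with hn
  have hn1 : 1 ≤ n := by
    rw [hn]
    exact Nat.log_pos (by omega) hN
  have h2 : c ^ n ≤ N := Nat.pow_log_le_self c hN1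
  have h3 : N < c ^ (n + 1) := Nat.lt_pow_succ_log_self (by omega) N
  refine ⟨n, ?_, ?_⟩
  · calc (β.support.card : ℝ) ^ n ≤ (c : ℝ) ^ n := pow_le_pow_left₀ (by positivity) hcβ n
      _ ≤ N := by exact_mod_cast h2
  · have hNR : (0 : ℝ) < N := by exact_mod_cast Nat.pos_of_ne_zero hN1
    have h4 : Real.log N ≤ (n + 1) * Real.log c := by
      have h5 : (N : ℝ) ≤ (c : ℝ) ^ (n + 1) := by exact_mod_cast h3.le
      have h6 := Real.log_le_log hNR h5
      rw [Real.log_pow] at h6
      push_cast at h6
      exact h6
    have hnR : (1 : ℝ) ≤ n := by exact_mod_cast hn1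
    have h5 : δ * Real.log N ≤ -(n * Real.log q) := by
      calc δ * Real.log N ≤ δ * ((n + 1) * Real.log c) := mul_le_mul_of_nonneg_left h4 hδ0.le
        _ ≤ δ * ((2 * n) * Real.log c) := by
            refine mul_le_mul_of_nonneg_left ?_ hδ0.le
            refine mul_le_mul_of_nonneg_right ?_ hlc.le
            linarith
        _ = -(n * Real.log q) := by
            rw [hδ]
            field_simp
    have h6 : q ^ n ≤ (N : ℝ) ^ (-δ) := by
      rw [Real.rpow_def_of_pos hNR, ← Real.exp_log hq0, ← Real.exp_nat_mul]
      apply Real.exp_le_exp.2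
      linarith
    calc 1 - kd (tpF n β) ≤ ρ ^ n := hpow n
      _ < q ^ n := pow_lt_pow_left₀ hq1 hρ0 (by omega)
      _ ≤ _ := h6

/-- **Analytic zero divisors and powers of the size of the support.** Let `C` be a class of groups
which is closed under finite powers, for example the torsion-free groups. Equivalent are: (a) for all
`G` in `C` and all nonzero `α` in `ℂ[G]`, `α * f ≠ 0` for all nonzero `f` in `ℓ²(G)`; (b) for every
`δ > 0` there are arbitrarily large `N` such that every nonzero element with coefficients `0`, `1`,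
`-1` and at most `N` terms, over a group in `C`, has rank at least `N ^ (- δ)`. -/
theorem result :
    (∀ C : (G : Type u) → [Group G] → Prop,
      (∀ (G : Type u) [Group G] (n : ℕ), C G → C (Fin n → G)) →
      ((∀ (G : Type u) [Group G], C G → ∀ α : G →₀ ℂ, α ≠ 0 → Regular α) ↔
        ∀ δ : ℝ, 0 < δ → ∀ N₀ : ℕ, ∃ N ≥ N₀, ∀ (G : Type u) [Group G], C G →
          ∀ α : G →₀ ℂ, α ≠ 0 → Signed α → α.support.card ≤ N → (N : ℝ) ^ (-δ) ≤ rank α)) ∧
    (∀ (G : Type u) [Group G] (n : ℕ), TorsionFree G → TorsionFree (Fin n → G)) := by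
  refine ⟨fun C hC => ⟨fun h δ hδ N₀ => ?_, fun h G _ hG α h0 => ?_⟩,
    fun G _ n h => torsionFree_pow G n h⟩
  · refine ⟨N₀ + 1, by omega, fun G _ hG α h0 _ _ => ?_⟩
    rw [rank_eq, kd_of_regular (h G hG α h0), sub_zero]
    apply Real.rpow_le_one_of_one_le_of_nonpos
    · push_cast
      have : (0 : ℝ) ≤ N₀ := Nat.cast_nonneg _
      linarith
    · linarith
  · by_contra hr
    have h1 := exists_of_not_regular hr
    obtain ⟨β, hβ0, hβ1, hβ2⟩ := signed α h0
    have h2 : 0 < kd β := lt_of_lt_of_le (pow_pos h1 _) hβ2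
    obtain ⟨δ, hδ, N₀, hN⟩ := small_rank β h2
    obtain ⟨N, hNN, hN'⟩ := h δ hδ N₀
    obtain ⟨n, hn1, hn2⟩ := hN N hNN
    have h3 := hN' _ (hC _ n (hC G _ hG)) (tpF n β) (tpF_ne_zero n hβ0) (tpF_values n hβ1) (by
      have h4 : (((tpF n β).support.card : ℕ) : ℝ) ≤ N := by
        refine le_trans ?_ hn1
        exact_mod_cast card_tpF n β
      exact_mod_cast h4)
    rw [rank_eq] at h3
    linarith

end Pool.Agent.Results.MP_0f25e6_al.SupportPowerLaw
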